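import Mathlib

/-!
# Natural density of multipliers from a finite set of multipliers
-/

set_option autoImplicit false

namespace MD39

open Finset

/-- Both equations of the ratio problem for the number `r`. -/
def Rep (r : ℚ) : Prop :=
  {x : ℕ × ℕ | x.1.Prime ∧ x.2.Prime ∧ ((x.1 : ℚ) + 1) / ((x.2 : ℚ) + 1) = r}.Infinite ∧
  {x : ℕ × ℕ | x.1.Prime ∧ x.2.Prime ∧ ((x.1 : ℚ) - 1) / ((x.2 : ℚ) - 1) = r}.Infinite

/-- Both sequences of primes for the multiplier `m`. -/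
def Good (m : ℕ) : Prop :=
  {p : ℕ | p.Prime ∧ (m * (p - 1) + 1).Prime}.Infinite ∧
  {p : ℕ | p.Prime ∧ (m * (p + 1) - 1).Prime}.Infinite

theorem good_of_rep (m : ℕ) (h : Rep (m : ℚ)) : Good m := by
  obtain ⟨h1, h2⟩ := h
  constructor
  · have key : ∀ x : ℕ × ℕ, x.1.Prime → x.2.Prime →
        ((x.1 : ℚ) - 1) / ((x.2 : ℚ) - 1) = (m : ℚ) → x.1 = m * (x.2 - 1) + 1 := by
      intro x hx1 hx2 hx
      have h3 : 1 < x.2 := hx2.one_lt
      have h4 : (1 : ℚ) < (x.2 : ℚ) := by exact_mod_cast h3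
      have h5 : ((x.2 : ℚ) - 1) ≠ 0 := by linarith
      rw [div_eq_iff h5] at hx
      have h6 : ((x.2 - 1 : ℕ) : ℚ) = (x.2 : ℚ) - 1 := by
        rw [Nat.cast_sub h3.le]; simp
      have h7 : (x.1 : ℚ) = ((m * (x.2 - 1) + 1 : ℕ) : ℚ) := by
        rw [Nat.cast_add, Nat.cast_mul, h6]; push_cast; linarith
      exact_mod_cast h7
    have hinj : Set.InjOn (fun x : ℕ × ℕ => x.2) {x : ℕ × ℕ | x.1.Prime ∧ x.2.Prime ∧
        ((x.1 : ℚ) - 1) / ((x.2 : ℚ) - 1) = (m : ℚ)} := by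
      rintro x ⟨hx1, hx2, hx⟩ y ⟨hy1, hy2, hy⟩ hxy
      have hxy' : x.2 = y.2 := hxy
      have e1 := key x hx1 hx2 hx
      have e2 := key y hy1 hy2 hy
      rw [hxy'] at e1
      exact Prod.ext (e1.trans e2.symm) hxy'
    refine (h2.image hinj).mono ?_
    rintro p ⟨x, ⟨hx1, hx2, hx⟩, rfl⟩
    exact ⟨hx2, by rw [← key x hx1 hx2 hx]; exact hx1⟩
  · have key : ∀ x : ℕ × ℕ, x.1.Prime → x.2.Prime →
        ((x.1 : ℚ) + 1) / ((x.2 : ℚ) + 1) = (m : ℚ) → x.1 = m * (x.2 + 1) - 1 := by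
      intro x hx1 hx2 hx
      have h5 : ((x.2 : ℚ) + 1) ≠ 0 := by positivity
      rw [div_eq_iff h5] at hx
      have h7 : ((x.1 + 1 : ℕ) : ℚ) = ((m * (x.2 + 1) : ℕ) : ℚ) := by
        push_cast; exact hx
      have h8 : x.1 + 1 = m * (x.2 + 1) := by exact_mod_cast h7
      omega
    have hinj : Set.InjOn (fun x : ℕ × ℕ => x.2) {x : ℕ × ℕ | x.1.Prime ∧ x.2.Prime ∧
        ((x.1 : ℚ) + 1) / ((x.2 : ℚ) + 1) = (m : ℚ)} := by
      rintro x ⟨hx1, hx2, hx⟩ y ⟨hy1, hy2, hy⟩ hxy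
      have hxy' : x.2 = y.2 := hxy
      have e1 := key x hx1 hx2 hx
      have e2 := key y hy1 hy2 hy
      rw [hxy'] at e1
      exact Prod.ext (e1.trans e2.symm) hxy'
    refine (h1.image hinj).mono ?_
    rintro p ⟨x, ⟨hx1, hx2, hx⟩, rfl⟩
    exact ⟨hx2, by rw [← key x hx1 hx2 hx]; exact hx1⟩

open Classical in
/-- A finite set of multipliers gives a uniform lower bound in every set of multiples. -/
theorem density_of_finite (P : ℕ → Prop) (D : Finset ℕ) (hD : ∀ d ∈ D, 0 < d)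
    (h : ∀ n : ℕ, 0 < n → ∃ d ∈ D, P (d * n)) :
    ∃ c : ℝ, 0 < c ∧ ∀ k N : ℕ, 0 < k → (k : ℝ) ≤ c * N →
      c * N / k ≤ (((Finset.Icc 1 N).filter (fun m => k ∣ m ∧ P m)).card : ℝ) := by
  obtain ⟨d₀, hd₀, -⟩ := h 1 one_pos
  set M : ℕ := ∑ d ∈ D, d with hM
  have hMd : ∀ d ∈ D, d ≤ M := fun d hd => Finset.single_le_sum (fun i _ => Nat.zero_le i) hd
  have hMpos : 0 < M := lt_of_lt_of_le (hD d₀ hd₀) (hMd d₀ hd₀)
  have hDpos : 0 < D.card := Finset.card_pos.mpr ⟨d₀, hd₀⟩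
  have hMr : (0 : ℝ) < M := by exact_mod_cast hMpos
  have hDr : (0 : ℝ) < D.card := by exact_mod_cast hDpos
  have hD1 : (1 : ℝ) ≤ D.card := by exact_mod_cast hDpos
  refine ⟨1 / (2 * M * D.card), by positivity, ?_⟩
  intro k N hk hkN
  have hkr : (0 : ℝ) < k := by exact_mod_cast hk
  choose! δ hδ using h
  set J : ℕ := N / (k * M) with hJ
  have hkM : 0 < k * M := Nat.mul_pos hk hMpos
  set S : Finset ℕ := (Finset.Icc 1 N).filter (fun m => k ∣ m ∧ P m) with hS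
  set φ : ℕ → ℕ := fun j => δ (k * j) * (k * j) with hφ
  have hmaps : ∀ j ∈ Finset.Icc 1 J, φ j ∈ S := by
    intro j hj
    obtain ⟨hj1, hj2⟩ := Finset.mem_Icc.mp hj
    have hkj : 0 < k * j := Nat.mul_pos hk hj1
    obtain ⟨hd, hP⟩ := hδ (k * j) hkj
    rw [hS, Finset.mem_filter, Finset.mem_Icc]
    refine ⟨⟨Nat.mul_pos (hD _ hd) hkj, ?_⟩, ⟨δ (k * j) * j, by simp only [hφ]; ring⟩, hP⟩
    calc δ (k * j) * (k * j) ≤ M * (k * J) :=
          Nat.mul_le_mul (hMd _ hd) (Nat.mul_le_mul_left k hj2)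
      _ = J * (k * M) := by ring
      _ ≤ N := Nat.div_mul_le_self N (k * M)
  have hfib : ∀ v ∈ S, ((Finset.Icc 1 J).filter (fun j => φ j = v)).card ≤ D.card := by
    intro v hv
    refine Finset.card_le_card_of_injOn (fun j => δ (k * j)) ?_ ?_
    · intro j hj
      obtain ⟨hj1, -⟩ := Finset.mem_filter.mp hj
      exact (hδ (k * j) (Nat.mul_pos hk (Finset.mem_Icc.mp hj1).1)).1
    · intro i hi j hj hij
      obtain ⟨hi1, hi2⟩ := Finset.mem_filter.mp hi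
      obtain ⟨hj1, hj2⟩ := Finset.mem_filter.mp hj
      have hij' : δ (k * i) = δ (k * j) := hij
      have hpos : 0 < δ (k * j) := hD _ (hδ (k * j) (Nat.mul_pos hk (Finset.mem_Icc.mp hj1).1)).1
      have e : δ (k * j) * (k * i) = δ (k * j) * (k * j) := by
        have e1 : φ i = φ j := hi2.trans hj2.symm
        simp only [hφ] at e1
        rw [hij'] at e1
        exact e1
      exact Nat.eq_of_mul_eq_mul_left hk (Nat.eq_of_mul_eq_mul_left hpos e)
  have hcard : J ≤ D.card * S.card := by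
    have := Finset.card_le_mul_card_image_of_maps_to (f := φ) (s := Finset.Icc 1 J) (t := S)
      hmaps D.card hfib
    simpa using this
  have hJr : (N : ℝ) / (k * M) - 1 < J := by
    have h1 := Nat.lt_div_mul_add (a := N) hkM
    have h2 : (N : ℝ) < (J : ℝ) * (k * M) + k * M := by
      have : N < J * (k * M) + k * M := by rw [hJ]; exact h1
      exact_mod_cast this
    rw [sub_lt_iff_lt_add, div_lt_iff₀ (by positivity)]
    linarith
  have h2 : (2 : ℝ) ≤ (N : ℝ) / (k * M) := by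
    rw [le_div_iff₀ (by positivity)]
    have h3 : (k : ℝ) * (2 * M * D.card) ≤ N := by
      rw [one_div, ← div_eq_inv_mul, le_div_iff₀ (by positivity)] at hkN
      exact hkN
    have h4 : (k : ℝ) * (2 * M) * 1 ≤ (k : ℝ) * (2 * M) * D.card :=
      mul_le_mul_of_nonneg_left hD1 (by positivity)
    nlinarith
  have h5 : (N : ℝ) / (k * M) / 2 ≤ J := by linarith
  have h6 : (J : ℝ) ≤ D.card * S.card := by exact_mod_cast hcard
  have h7 : (N : ℝ) / (k * M) / 2 / D.card ≤ S.card := by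
    rw [div_le_iff₀ hDr]; linarith
  calc 1 / (2 * (M : ℝ) * D.card) * N / k = (N : ℝ) / (k * M) / 2 / D.card := by
        field_simp
    _ ≤ S.card := h7

end MD39
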